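import Pool.Agent.Helper23.ZN.R6
import Pool.Agent.Helper53.ZN.UnitReg

/-!
ZN-R6: `neutral_rel` (helper23), the conditional form `neutral_rel_of` applied to
`tuning` (helper57) and `unit_reg` (helper53).
-/

namespace Pool.Agent.Helper1.ZN

theorem neutral_rel {η h : ℝ} (hη : 0 < η) (hh : 0 < h) (hM : Margin η h) (C0 C ρ : ℝ)
    (hρ : 0 < ρ) :
    ∃ ε > 0, ∃ n0 : ℕ, ∀ n ≥ n0, ∀ A B : ℕ → ℝ, Bd n A → Bd n B → SC n η ε C0 A B →
      ∀ a, IsBase a → ∀ R : Fin 10 → ℕ, Function.Injective R → (∀ i, InJ n (R i)) →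
      |∑ i, tt n (R i)| ≤ C / n → |∑ i, tt n (R i) ^ 3| ≤ C / n →
      Near (h / 2) a (fun i => tt n (R i)) →
      |(∑ i, (3 * (a - 1 / a) ^ 2 * A (R i) - B (R i)))
        + (3 * (a - 1 / a) ^ 2 * A (nearI n a) - B (nearI n a))
        + (3 * (a - 1 / a) ^ 2 * A (nearI n (-1 / a)) - B (nearI n (-1 / a)))| ≤ ρ :=
  neutral_rel_of (fun ε C hε => tuning ε C hε)
    (fun {_ _} hη hh hM C0 ρ hρ => unit_reg hη hh hM C0 ρ hρ) hη hh hM C0 C ρ hρ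

end Pool.Agent.Helper1.ZN
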